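import Pool.Agent.Lib.MP_e19099_pr.FFinal
import Pool.Agent.Lib.MP_e19099_pr.D_Main

/-!
# Q2: diffusion limit of the MALA algorithm on the rough target

For almost every realisation of the fractional Brownian motion `B` and every `c > 0` the target
`exp V`, `V x = -x ^ 2 / 2 + ∫_0^x B_u φ_c(u) (x - u) du`, is integrable and the first coordinate
of the stationary MALA chain in dimension `d = n + 1` with proposal
`N(x + (v/2) ∇ log Π(x), v I)`, `v = l ^ 2 d ^ (-1/(2+H))`, sped up by `d ^ (1/(2+H))`, converges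
weakly in the Skorokhod space to the Langevin diffusion of the target with speed
`2 l ^ 2 Φ(-σ/2)`.
-/

set_option autoImplicit false

open MeasureTheory ProbabilityTheory Filter Set
open scoped NNReal Topology ENNReal

namespace Pool.Agent.Results.MP_e19099_pr.MalaLimit

open Pool.Agent.Lib.MP_e19099_pr

universe u v w

/-- The cutoff `φ_c(x) = min(1, c^{3/(2H)} |x|^{-3})`, with `φ_c(0) = 1`. -/
noncomputable def cutoff (H c x : ℝ) : ℝ :=
  if x = 0 then 1 else min 1 (c ^ (3 / (2 * H)) * |x| ^ (-3 : ℝ))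

/-- The potential `V x = -x²/2 + ∫_0^x b_u φ_c(u) (x - u) du`. -/
noncomputable def potential (H c : ℝ) (b : ℝ → ℝ) (x : ℝ) : ℝ :=
  -x ^ 2 / 2 + ∫ u in (0 : ℝ)..x, b u * cutoff H c u * (x - u)

theorem result {Ω : Type w} [MeasurableSpace Ω] {P : Measure Ω} {H l : ℝ} (hH : 0 < H)
    (hH1 : H < 1) (hl : 0 < l) {B : ℝ → Ω → ℝ} (hB : IsFBM P H B) :
    ∀ᵐ ω ∂P, ∀ c : ℝ, 0 < c → ∀ V : ℝ → ℝ, V = potential H c (fun x => B x ω) →
      (Integrable fun x => Real.exp (V x)) ∧ Differentiable ℝ V ∧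
      DiffusionLimit.{u, v} V
        (fun n x y => ∏ i, gaussianPDFReal (x i + propVar l (2 + H) n / 2 * deriv V (x i))
          (propVar l (2 + H) n) (y i)) (2 + H)
        (speed l (l ^ (4 + 2 * H) * (2 ^ (H - 1) * Real.Gamma (H + 5 / 2) / √Real.pi)
          * (H / (2 + 7 * H + 7 * H ^ 2 + 2 * H ^ 3))
          * ∫ x, cutoff H c x ^ 2 ∂(target V))) := by
  have hB' : F.IsFBM H B P := ⟨hB.meas, hB.gauss, hB.mean, hB.cov, hB.cont⟩
  filter_upwards [F.ae_good hB' hH hH1] with ω hω c hc V hV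
  have h1 := mala_good.{u, v} hH hH1 hl hc hω (V := V) (fun x => by rw [hV]; rfl)
  refine ⟨h1.1, ?_, h1.2⟩
  have h2 : V = Vm H c fun x => B x ω := by rw [hV]; rfl
  rw [h2]
  exact fun x => ((hω.mpot hH hH1 hc).dV x).differentiableAt

end Pool.Agent.Results.MP_e19099_pr.MalaLimit
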