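import Pool.Agent.Lib.MP_e19099_pr.FFinal
import Pool.Agent.Lib.MP_e19099_pr.D_Main

/-!
# Q1: diffusion limit of the random walk Metropolis algorithm on the rough target

For almost every realisation of the fractional Brownian motion `B` the function
`exp (B x - x ^ 2 / 2)` is integrable and the first coordinate of the stationary random walk
Metropolis chain in dimension `d = n + 1` with proposal variance `l ^ 2 d ^ (-1/H)`, sped up by
`d ^ (1/H)`, converges weakly in the Skorokhod space to the Langevin diffusion of the target with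
speed `2 l ^ 2 Φ(-σ/2)`, `σ ^ 2 = l ^ (2H) 2 ^ H Γ(H + 1/2) / √π`.
-/

set_option autoImplicit false

open MeasureTheory ProbabilityTheory Filter Set
open scoped NNReal Topology ENNReal

namespace Pool.Agent.Results.MP_e19099_pr.RwmLimit

open Pool.Agent.Lib.MP_e19099_pr

universe u v w

theorem result {Ω : Type w} [MeasurableSpace Ω] {P : Measure Ω} {H l : ℝ} (hH : 0 < H)
    (hH1 : H < 1) (hl : 0 < l) {B : ℝ → Ω → ℝ} (hB : IsFBM P H B) :
    ∀ᵐ ω ∂P,
      (Integrable fun x => Real.exp (B x ω - x ^ 2 / 2)) ∧
      DiffusionLimit.{u, v} (fun x => B x ω - x ^ 2 / 2)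
        (fun n x y => ∏ i, gaussianPDFReal (x i) (propVar l H n) (y i)) H
        (speed l (l ^ (2 * H) * (2 ^ H * Real.Gamma (H + 1 / 2) / √Real.pi))) := by
  have hB' : F.IsFBM H B P := ⟨hB.meas, hB.gauss, hB.mean, hB.cov, hB.cont⟩
  filter_upwards [F.ae_good hB' hH hH1] with ω hω
  exact rwm_good hH hH1 hl hω

end Pool.Agent.Results.MP_e19099_pr.RwmLimit
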